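import Pool.Agent.Q281.EK.GoalB
import Pool.Agent.Q281.QC.Stmt2

set_option autoImplicit false

/-!
# MP_659547_nt: the q-congruences for the sum with factor `[8k+1]` (Q1, proof)

For `n ≡ 1 (mod 4)` the polynomial `[n]` divides `S_n(q)`, and for `n ≡ 3 (mod 4)` the polynomial
`[n] Φ_n(q)^2` divides `S_n(q)`.

Method. Put `t_k = (1-q^(8k+1)) q^(4k) (q;q^4)_k (q^2;q^4)_k / ((q^4;q^4)_k (q^3;q^4)_k)` and
`P_k(x) = (xq;q^4)_k (q/x;q^4)_k / ((xq^4;q^4)_k (q^4/x;q^4)_k)`. Then `(1-q) S_n = ∑_{k<n} t_k P_k(1)^2`. For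
`x = q^(4M+1)` the sum `∑ t_k P_k(x) P_k(y)` terminates and has a product evaluation (a case of Jackson's
sum, proved here by telescoping in `M`).

* Modulo `Φ_d`, `d ∣ n`, `d > 1`: take `y = 1` and `x = q^(s d)` with `s d ≡ 1 (mod 4)`. After
  multiplication by `q^d - 1` all terms are regular and modulo `(q^d-1)^2` the evaluations form a triangular
  system for the block sums, which therefore vanish.
* Modulo `Φ_n^3`, `n ≡ 3 (mod 4)`: `P_k(1)^2 = 2 P_k(1) P_k(x) - P_k(x)^2 + (P_k(1) - P_k(x))^2` with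
  `x = q^(3n)`, and `P_k(1) - P_k(x)` is divisible by `(q^n-1)^2` for `k < n`.
-/

namespace Pool.Agent.Results.MP_659547_nt.EightKPlusOne

open Polynomial Pool.Agent.Q281.QCD Pool.Agent.Q281

/-- `A_k(q)`. -/
noncomputable def A (k : ℕ) : RatFunc ℚ :=
  qp q (q ^ 4) k ^ 6 / qp (q ^ 4) (q ^ 4) k ^ 6 *
    (qp (q ^ 2) (q ^ 2) (2 * k) / qp q (q ^ 2) (2 * k))

/-- `S_n(q)`. -/
noncomputable def S (n : ℕ) : RatFunc ℚ :=
  ∑ k ∈ Finset.range n, q ^ (4 * k) * qint (8 * k + 1) * A k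

/-- The polynomial `[n]`. -/
noncomputable def qintPoly (n : ℕ) : Polynomial ℚ := ∑ i ∈ Finset.range n, X ^ i

theorem qp_two (a : ℕ) (k : ℕ) : qp (q ^ a) (q ^ 2) (2 * k) =
    ∏ i ∈ Finset.range k, ((1 - q ^ (4 * i + a)) * (1 - q ^ (4 * i + (a + 2)))) := by
  induction k with
  | zero => simp [qp]
  | succ k ih =>
    rw [qp] at ih
    rw [qp, show 2 * (k + 1) = 2 * k + 1 + 1 by ring, Finset.prod_range_succ,
      Finset.prod_range_succ, ih, Finset.prod_range_succ]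
    have e1 : q ^ a * (q ^ 2) ^ (2 * k) = q ^ (4 * k + a) := by
      rw [← pow_mul, ← pow_add]; congr 1; ring
    have e2 : q ^ a * (q ^ 2) ^ (2 * k + 1) = q ^ (4 * k + (a + 2)) := by
      rw [← pow_mul, ← pow_add]; congr 1; ring
    rw [e1, e2, mul_assoc]

theorem qp_four (a : ℕ) (k : ℕ) : qp (q ^ a) (q ^ 4) k = EK.Pa a k := by
  rw [qp, EK.Pa]
  refine Finset.prod_congr rfl fun i _ => ?_
  rw [← pow_mul, ← pow_add, add_comm a]

theorem A_eq (k : ℕ) : A k = EK.Pa 1 k ^ 5 * EK.Pa 2 k / (EK.Pa 4 k ^ 5 * EK.Pa 3 k) := by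
  have h1 := qp_four 1 k
  have h2 := qp_four 4 k
  have h3 := qp_two 2 k
  have h4 := qp_two 1 k
  rw [pow_one] at h1 h4
  rw [Finset.prod_mul_distrib] at h3 h4
  have n1 := EK.Pa_ne (a := 1) (by norm_num) k
  have n3 := EK.Pa_ne (a := 3) (by norm_num) k
  have n4 := EK.Pa_ne (a := 4) (by norm_num) k
  have h3' : qp (q ^ 2) (q ^ 2) (2 * k) = EK.Pa 2 k * EK.Pa 4 k := h3
  have h4' : qp q (q ^ 2) (2 * k) = EK.Pa 1 k * EK.Pa 3 k := h4
  rw [A, h1, h2, h3', h4']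
  field_simp

theorem S_eq (n : ℕ) : (1 - q) * S n = ∑ k ∈ Finset.range n, EK.tk q 1 1 k := by
  rw [S, Finset.mul_sum]
  refine Finset.sum_congr rfl fun k _ => ?_
  have h : (1 - q) * qint (8 * k + 1) = 1 - q ^ (8 * k + 1) := by
    rw [qint, mul_comm, geom_sum_mul_neg]
  have e := EK.T0_eq k
  rw [e, ← h, A_eq]
  ring

theorem one_sub_q_inv {d : ℕ} (hd : 1 < d) : (1 - q)⁻¹ ∈ QC.Loc (QC.Phi d) ∧ (1 - q) ≠ 0 := by
  have h1 : ¬ d ∣ 1 := by
    intro h
    have := Nat.le_of_dvd one_pos h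
    omega
  have h2 := QC.one_sub_inv_mem (n := d) (by omega) h1
  rw [pow_one] at h2
  refine ⟨h2, fun h => ?_⟩
  have h3 := QC.q_pow_ne_one (a := 1) one_pos
  rw [pow_one] at h3
  exact h3 (sub_eq_zero.1 h).symm

theorem phi_dvd {n d : ℕ} (r : ℕ) (hd : 1 < d)
    (h : ∃ z ∈ QC.Loc (QC.Phi d), ∑ k ∈ Finset.range n, EK.tk q 1 1 k = QC.del d ^ r * z) :
    cyclotomic d ℚ ^ r ∣ (S n).num := by
  obtain ⟨z, hz, e⟩ := h
  obtain ⟨hi, hne⟩ := one_sub_q_inv hd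
  obtain ⟨g, hg⟩ := QC.del_eq d
  refine QC.dvd_num r (z := QC.ι g ^ r * z * (1 - q)⁻¹) (mul_mem (mul_mem
    (pow_mem (QC.poly_mem _ _) _) hz) hi) ?_
  have e1 : S n = (1 - q) * S n * (1 - q)⁻¹ := by
    rw [mul_comm (1 - q), mul_assoc, mul_inv_cancel₀ hne, mul_one]
  rw [e1, S_eq, e, hg, mul_pow]
  ring

/-- Q1. -/
theorem result : ∀ n : ℕ, (n % 4 = 1 → qintPoly n ∣ (S n).num) ∧
    (n % 4 = 3 → qintPoly n * cyclotomic n ℚ ^ 2 ∣ (S n).num) := by
  intro n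
  have hA : n % 2 = 1 → ∀ d ∈ n.divisors.erase 1, cyclotomic d ℚ ∣ (S n).num := by
    intro hn2 d hd
    rw [Finset.mem_erase, Nat.mem_divisors] at hd
    have hd1 : 1 < d := by
      have : 0 < d := Nat.pos_of_dvd_of_pos hd.2.1 (by omega)
      omega
    have h := phi_dvd (n := n) 1 hd1 (by
      obtain ⟨z, hz, e⟩ := EK.goalA hd1 hd.2.1 hn2
      exact ⟨z, hz, by rw [e, pow_one]⟩)
    rwa [pow_one] at h
  constructor
  · intro h4
    have hn : 0 < n := by omega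
    rw [qintPoly, ← prod_cyclotomic_eq_geom_sum hn]
    refine Finset.prod_dvd_of_coprime ?_ (hA (by omega))
    intro a _ b _ hab
    exact cyclotomic.isCoprime_rat hab
  · intro h4
    have hn : 0 < n := by omega
    have hmem : n ∈ n.divisors.erase 1 := by
      rw [Finset.mem_erase, Nat.mem_divisors]
      exact ⟨by omega, dvd_rfl, by omega⟩
    rw [qintPoly, ← prod_cyclotomic_eq_geom_sum hn, ← Finset.mul_prod_erase _ _ hmem]
    have e1 : cyclotomic n ℚ * (∏ x ∈ (n.divisors.erase 1).erase n, cyclotomic x ℚ) *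
        cyclotomic n ℚ ^ 2 = cyclotomic n ℚ ^ 3 *
          ∏ x ∈ (n.divisors.erase 1).erase n, cyclotomic x ℚ := by ring
    rw [e1]
    refine IsCoprime.mul_dvd ?_ (phi_dvd 3 (by omega) (EK.goalB h4)) ?_
    · refine IsCoprime.pow_left (IsCoprime.prod_right fun x hx => ?_)
      rw [Finset.mem_erase] at hx
      exact cyclotomic.isCoprime_rat (Ne.symm hx.1)
    · refine Finset.prod_dvd_of_coprime ?_ (fun d hd => hA (by omega) d (Finset.mem_of_mem_erase hd))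
      intro a _ b _ hab
      exact cyclotomic.isCoprime_rat hab

end Pool.Agent.Results.MP_659547_nt.EightKPlusOne
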